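import Mathlib

namespace Q36.Conic

open scoped LinearAlgebra.Projectivization

/-- The form `x₁^d + x₂^d + x₃^d - x₄^d - x₅^d - x₆^d`. -/
def F (d : ℕ) (x : Fin 6 → ℂ) : ℂ :=
  x 0 ^ d + x 1 ^ d + x 2 ^ d - x 3 ^ d - x 4 ^ d - x 5 ^ d

/-- The hypersurface `X_d` in projective five-space. -/
def Xd (d : ℕ) : Set (ℙ ℂ (Fin 6 → ℂ)) := {p | F d p.rep = 0}

/-- The quadratic form of a symmetric matrix. -/
def quad (A : Matrix (Fin 3) (Fin 3) ℂ) (x : Fin 3 → ℂ) : ℂ := ∑ i, ∑ j, A i j * x i * x j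

/-- Smooth plane conics: the zero locus of a nondegenerate quadratic form on the plane spanned by
three independent vectors. -/
def IsConic (C : Set (ℙ ℂ (Fin 6 → ℂ))) : Prop :=
  ∃ (v : Fin 3 → Fin 6 → ℂ) (A : Matrix (Fin 3) (Fin 3) ℂ),
    LinearIndependent ℂ v ∧ A.IsSymm ∧ A.det ≠ 0 ∧
    C = {p | ∃ x : Fin 3 → ℂ, quad A x = 0 ∧ p.rep = ∑ k, x k • v k}

/-- Degenerate sets of points: some ratio `x_i / x_j` with `i ≠ j` is constant. -/
def Degenerate (C : Set (ℙ ℂ (Fin 6 → ℂ))) : Prop :=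
  ∃ i j : Fin 6, i ≠ j ∧ ∃ a b : ℂ, ¬ (a = 0 ∧ b = 0) ∧
    ∀ p ∈ C, a * p.rep i - b * p.rep j = 0

theorem F_smul (d : ℕ) (a : ℂ) (x : Fin 6 → ℂ) : F d (a • x) = a ^ d * F d x := by
  simp only [F, Pi.smul_apply, smul_eq_mul, mul_pow]
  ring

theorem mk_mem_X (d : ℕ) (v : Fin 6 → ℂ) (hv : v ≠ 0) :
    Projectivization.mk ℂ v hv ∈ Xd d ↔ F d v = 0 := by
  obtain ⟨a, ha⟩ := Projectivization.exists_smul_eq_mk_rep ℂ v hv
  have h1 : ((a : ℂ) • v) = (Projectivization.mk ℂ v hv).rep := ha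
  rw [Xd, Set.mem_ofPred_eq, ← h1, F_smul]
  constructor
  · intro h
    rcases mul_eq_zero.mp h with h | h
    · exact absurd h (pow_ne_zero _ a.ne_zero)
    · exact h
  · intro h
    rw [h, mul_zero]

theorem mk_lin (a b : ℂ) (i j : Fin 6) (v : Fin 6 → ℂ) (hv : v ≠ 0) :
    a * (Projectivization.mk ℂ v hv).rep i - b * (Projectivization.mk ℂ v hv).rep j = 0 ↔
      a * v i - b * v j = 0 := by
  obtain ⟨c, hc⟩ := Projectivization.exists_smul_eq_mk_rep ℂ v hv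
  have h1 : ((c : ℂ) • v) = (Projectivization.mk ℂ v hv).rep := hc
  rw [← h1]
  simp only [Pi.smul_apply, smul_eq_mul]
  have h2 : a * ((c : ℂ) * v i) - b * ((c : ℂ) * v j) = (c : ℂ) * (a * v i - b * v j) := by ring
  rw [h2, mul_eq_zero]
  constructor
  · intro h
    rcases h with h | h
    · exact absurd h c.ne_zero
    · exact h
  · intro h
    exact Or.inr h

theorem quad_smul (A : Matrix (Fin 3) (Fin 3) ℂ) (c : ℂ) (x : Fin 3 → ℂ) :
    quad A (c • x) = c ^ 2 * quad A x := by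
  simp only [quad, Fin.sum_univ_three, Pi.smul_apply, smul_eq_mul]
  ring

/-- membership of the point of a vector in a conic. -/
theorem mk_mem_conic (v : Fin 3 → Fin 6 → ℂ) (A : Matrix (Fin 3) (Fin 3) ℂ) (x : Fin 3 → ℂ)
    (hx : quad A x = 0) (u : Fin 6 → ℂ) (hu : u ≠ 0) (hux : u = ∑ k, x k • v k) :
    ∃ y : Fin 3 → ℂ, quad A y = 0 ∧ (Projectivization.mk ℂ u hu).rep = ∑ k, y k • v k := by
  obtain ⟨c, hc⟩ := Projectivization.exists_smul_eq_mk_rep ℂ u hu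
  have h1 : ((c : ℂ) • u) = (Projectivization.mk ℂ u hu).rep := hc
  refine ⟨(c : ℂ) • x, by rw [quad_smul, hx, mul_zero], ?_⟩
  rw [← h1, hux, Finset.smul_sum]
  refine Finset.sum_congr rfl fun k _ => ?_
  rw [smul_smul]
  rfl

end Q36.Conic
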