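import Mathlib
import Pool.Agent.Q36.ConicDefs

namespace Q36.Conic

/-- Klein form of degree twelve. -/
def kf (s t : ℂ) : ℂ := s * t * (s ^ 10 + 11 * s ^ 5 * t ^ 5 - t ^ 10)

/-- form of degree twenty. -/
def kh (s t : ℂ) : ℂ := s ^ 20 + t ^ 20 - 228 * s ^ 15 * t ^ 5 + 228 * s ^ 5 * t ^ 15 + 494 * s ^ 10 * t ^ 10

theorem sextic0 (s t : ℂ) : ((s ^ 2 + s * t - t ^ 2) ^ 2) ^ 6 =
    10 * kf s t * ((s ^ 2 + s * t - t ^ 2) ^ 2) ^ 3 + kh s t * (s ^ 2 + s * t - t ^ 2) ^ 2 - 5 * kf s t ^ 2 := by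
  simp only [kf, kh]
  ring

theorem sexticInf (s t : ℂ) : (5 * (s * t) ^ 2) ^ 6 =
    10 * kf s t * (5 * (s * t) ^ 2) ^ 3 + kh s t * (5 * (s * t) ^ 2) - 5 * kf s t ^ 2 := by
  simp only [kf, kh]
  ring

theorem sextic (s t u v : ℂ) (hu : u ^ 5 = 1) (hv : v ^ 5 = 1) (huv : u * v = 1) :
    ((u ^ 2 * s ^ 2 + s * t - v ^ 2 * t ^ 2) ^ 2) ^ 6 =
    10 * kf s t * ((u ^ 2 * s ^ 2 + s * t - v ^ 2 * t ^ 2) ^ 2) ^ 3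
      + kh s t * (u ^ 2 * s ^ 2 + s * t - v ^ 2 * t ^ 2) ^ 2 - 5 * kf s t ^ 2 := by
  have h := sextic0 (u * s) (v * t)
  have h1 : kf (u * s) (v * t) = kf s t := by
    simp only [kf, mul_pow]
    have e1 : u ^ 10 = 1 := by
      calc u ^ 10 = (u ^ 5) ^ 2 := by ring
        _ = 1 := by rw [hu]; norm_num
    have e2 : v ^ 10 = 1 := by
      calc v ^ 10 = (v ^ 5) ^ 2 := by ring
        _ = 1 := by rw [hv]; norm_num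
    rw [e1, e2, hu, hv]
    have e3 : u * s * (v * t) = s * t := by
      calc u * s * (v * t) = (u * v) * (s * t) := by ring
        _ = s * t := by rw [huv]; ring
    rw [e3]; ring
  have h2 : kh (u * s) (v * t) = kh s t := by
    simp only [kh, mul_pow]
    have e1 : u ^ 10 = 1 := by
      calc u ^ 10 = (u ^ 5) ^ 2 := by ring
        _ = 1 := by rw [hu]; norm_num
    have e2 : v ^ 10 = 1 := by
      calc v ^ 10 = (v ^ 5) ^ 2 := by ring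
        _ = 1 := by rw [hv]; norm_num
    have e4 : u ^ 20 = 1 := by
      calc u ^ 20 = (u ^ 5) ^ 4 := by ring
        _ = 1 := by rw [hu]; norm_num
    have e5 : v ^ 20 = 1 := by
      calc v ^ 20 = (v ^ 5) ^ 4 := by ring
        _ = 1 := by rw [hv]; norm_num
    have e6 : u ^ 15 = 1 := by
      calc u ^ 15 = (u ^ 5) ^ 3 := by ring
        _ = 1 := by rw [hu]; norm_num
    have e7 : v ^ 15 = 1 := by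
      calc v ^ 15 = (v ^ 5) ^ 3 := by ring
        _ = 1 := by rw [hv]; norm_num
    rw [e1, e2, hu, hv, e4, e5, e6, e7]
    ring
  have h3 : (u * s) ^ 2 + (u * s) * (v * t) - (v * t) ^ 2 = u ^ 2 * s ^ 2 + s * t - v ^ 2 * t ^ 2 := by
    calc (u * s) ^ 2 + (u * s) * (v * t) - (v * t) ^ 2
        = u ^ 2 * s ^ 2 + (u * v) * (s * t) - v ^ 2 * t ^ 2 := by ring
      _ = _ := by rw [huv]; ring
  rw [h1, h2, h3] at h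
  exact h

theorem p1 (x s t : ℂ) (h : x ^ 4 + x ^ 3 + x ^ 2 + x + 1 = 0) :
    (s ^ 2 + s * t - t ^ 2) ^ 2 + (x ^ 4 * s ^ 2 + s * t - x * t ^ 2) ^ 2
    + (x ^ 3 * s ^ 2 + s * t - x ^ 2 * t ^ 2) ^ 2 + (x ^ 2 * s ^ 2 + s * t - x ^ 3 * t ^ 2) ^ 2
    + (x * s ^ 2 + s * t - x ^ 4 * t ^ 2) ^ 2 + 5 * (s * t) ^ 2 = 0 := by
  linear_combination (s ^ 0 * t ^ 4 * ((1) * x ^ 0 + (-1) * x ^ 1 + (1) * x ^ 2 + (-1) * x ^ 3 + (1) * x ^ 4) + s ^ 1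
    * t ^ 3 * ((-2) * x ^ 0) + s ^ 2 * t ^ 2 * ((8) * x ^ 0 + (-8) * x ^ 1) + s ^ 3 * t ^ 1 * ((2)
    * x ^ 0) + s ^ 4 * t ^ 0 * ((1) * x ^ 0 + (-1) * x ^ 1 + (1) * x ^ 2 + (-1) * x ^ 3 + (1) * x ^
    4)) * h

theorem p2 (x s t : ℂ) (h : x ^ 4 + x ^ 3 + x ^ 2 + x + 1 = 0) :
    (s ^ 2 + s * t - t ^ 2) ^ 4 + (x ^ 4 * s ^ 2 + s * t - x * t ^ 2) ^ 4
    + (x ^ 3 * s ^ 2 + s * t - x ^ 2 * t ^ 2) ^ 4 + (x ^ 2 * s ^ 2 + s * t - x ^ 3 * t ^ 2) ^ 4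
    + (x * s ^ 2 + s * t - x ^ 4 * t ^ 2) ^ 4 + 25 * (s * t) ^ 4 = 0 := by
  linear_combination (s ^ 0 * t ^ 8 * ((1) * x ^ 0 + (-1) * x ^ 1 + (1) * x ^ 4 + (-1) * x ^ 6 + (1) * x ^ 8 + (-1) *
    x ^ 11 + (1) * x ^ 12) + s ^ 1 * t ^ 7 * ((-4) * x ^ 0 + (4) * x ^ 1 + (-4) * x ^ 3 + (4) * x ^
    4 + (-4) * x ^ 5 + (4) * x ^ 7 + (-4) * x ^ 8) + s ^ 2 * t ^ 6 * ((2) * x ^ 0 + (-2) * x ^ 1 +
    (6) * x ^ 2 + (-6) * x ^ 3 + (6) * x ^ 4 + (-4) * x ^ 5 + (4) * x ^ 6 + (-4) * x ^ 7 + (4) * x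
    ^ 8 + (-4) * x ^ 9) + s ^ 3 * t ^ 5 * ((8) * x ^ 0 + (-12) * x ^ 1 + (12) * x ^ 5) + s ^ 4 * t
    ^ 4 * ((24) * x ^ 0 + (-24) * x ^ 1 + (-24) * x ^ 5 + (24) * x ^ 6) + s ^ 5 * t ^ 3 * ((-8) * x
    ^ 0 + (12) * x ^ 1 + (-12) * x ^ 5) + s ^ 6 * t ^ 2 * ((2) * x ^ 0 + (-2) * x ^ 1 + (6) * x ^ 2
    + (-6) * x ^ 3 + (6) * x ^ 4 + (-4) * x ^ 5 + (4) * x ^ 6 + (-4) * x ^ 7 + (4) * x ^ 8 + (-4) *
    x ^ 9) + s ^ 7 * t ^ 1 * ((4) * x ^ 0 + (-4) * x ^ 1 + (4) * x ^ 3 + (-4) * x ^ 4 + (4) * x ^ 5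
    + (-4) * x ^ 7 + (4) * x ^ 8) + s ^ 8 * t ^ 0 * ((1) * x ^ 0 + (-1) * x ^ 1 + (1) * x ^ 4 +
    (-1) * x ^ 6 + (1) * x ^ 8 + (-1) * x ^ 11 + (1) * x ^ 12)) * h

theorem p4 (x s t : ℂ) (h : x ^ 4 + x ^ 3 + x ^ 2 + x + 1 = 0) :
    (s ^ 2 + s * t - t ^ 2) ^ 8 + (x ^ 4 * s ^ 2 + s * t - x * t ^ 2) ^ 8
    + (x ^ 3 * s ^ 2 + s * t - x ^ 2 * t ^ 2) ^ 8 + (x ^ 2 * s ^ 2 + s * t - x ^ 3 * t ^ 2) ^ 8
    + (x * s ^ 2 + s * t - x ^ 4 * t ^ 2) ^ 8 + 625 * (s * t) ^ 8 = 0 := by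
  linear_combination (s ^ 0 * t ^ 16 * ((1) * x ^ 0 + (-1) * x ^ 1 + (1) * x ^ 5 + (-1) * x ^ 6 + (1) * x ^ 8 + (-1)
    * x ^ 9 + (1) * x ^ 10 + (-1) * x ^ 11 + (1) * x ^ 13 + (-1) * x ^ 14 + (1) * x ^ 15 + (-1) * x
    ^ 17 + (1) * x ^ 18 + (-1) * x ^ 19 + (1) * x ^ 20 + (-1) * x ^ 22 + (1) * x ^ 23 + (-1) * x ^
    27 + (1) * x ^ 28) + s ^ 1 * t ^ 15 * ((-8) * x ^ 0 + (8) * x ^ 1 + (-8) * x ^ 5 + (8) * x ^ 6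
    + (-8) * x ^ 7 + (8) * x ^ 8 + (-8) * x ^ 10 + (8) * x ^ 11 + (-8) * x ^ 12 + (8) * x ^ 13 +
    (-8) * x ^ 14 + (8) * x ^ 16 + (-8) * x ^ 17 + (8) * x ^ 18 + (-8) * x ^ 19 + (8) * x ^ 23 +
    (-8) * x ^ 24) + s ^ 2 * t ^ 14 * ((20) * x ^ 0 + (-20) * x ^ 1 + (20) * x ^ 5 + (8) * x ^ 6 +
    (-28) * x ^ 7 + (20) * x ^ 10 + (8) * x ^ 12 + (-28) * x ^ 13 + (20) * x ^ 15 + (8) * x ^ 18 +
    (-28) * x ^ 19 + (20) * x ^ 20 + (8) * x ^ 24 + (-8) * x ^ 25) + s ^ 3 * t ^ 13 * ((-56) * x ^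
    5 + (56) * x ^ 6 + (-56) * x ^ 10 + (56) * x ^ 11 + (-56) * x ^ 15 + (56) * x ^ 16 + (-56) * x
    ^ 20 + (56) * x ^ 21) + s ^ 4 * t ^ 12 * ((-70) * x ^ 0 + (70) * x ^ 1 + (70) * x ^ 4 + (-140)
    * x ^ 5 + (70) * x ^ 6 + (70) * x ^ 8 + (-168) * x ^ 9 + (28) * x ^ 10 + (70) * x ^ 11 + (70) *
    x ^ 12 + (-168) * x ^ 13 + (28) * x ^ 14 + (140) * x ^ 16 + (-168) * x ^ 17 + (28) * x ^ 18 +
    (-28) * x ^ 21 + (28) * x ^ 22) + s ^ 5 * t ^ 11 * ((56) * x ^ 0 + (-56) * x ^ 1 + (-56) * x ^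
    3 + (56) * x ^ 4 + (56) * x ^ 5 + (-112) * x ^ 6 + (56) * x ^ 7 + (224) * x ^ 8 + (-280) * x ^
    9 + (112) * x ^ 10 + (168) * x ^ 11 + (-280) * x ^ 12 + (112) * x ^ 13 + (168) * x ^ 14 +
    (-168) * x ^ 15 + (168) * x ^ 17 + (-168) * x ^ 18) + s ^ 6 * t ^ 10 * ((112) * x ^ 0 + (-112)
    * x ^ 1 + (28) * x ^ 2 + (-28) * x ^ 3 + (28) * x ^ 4 + (84) * x ^ 5 + (-84) * x ^ 6 + (-280) *
    x ^ 7 + (280) * x ^ 8 + (-280) * x ^ 9 + (364) * x ^ 10 + (-364) * x ^ 11 + (420) * x ^ 12 +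
    (-420) * x ^ 13 + (420) * x ^ 14 + (-56) * x ^ 15 + (56) * x ^ 16 + (-56) * x ^ 17 + (56) * x ^
    18 + (-56) * x ^ 19) + s ^ 7 * t ^ 9 * ((-120) * x ^ 0 + (112) * x ^ 1 + (-112) * x ^ 5 + (280)
    * x ^ 6 + (-280) * x ^ 10 + (-280) * x ^ 11 + (280) * x ^ 15) + s ^ 8 * t ^ 8 * ((504) * x ^ 0
    + (-504) * x ^ 1 + (280) * x ^ 5 + (-280) * x ^ 6 + (1960) * x ^ 10 + (-1960) * x ^ 11 + (-280)
    * x ^ 15 + (280) * x ^ 16) + s ^ 9 * t ^ 7 * ((120) * x ^ 0 + (-112) * x ^ 1 + (112) * x ^ 5 +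
    (-280) * x ^ 6 + (280) * x ^ 10 + (280) * x ^ 11 + (-280) * x ^ 15) + s ^ 10 * t ^ 6 * ((112) *
    x ^ 0 + (-112) * x ^ 1 + (28) * x ^ 2 + (-28) * x ^ 3 + (28) * x ^ 4 + (84) * x ^ 5 + (-84) * x
    ^ 6 + (-280) * x ^ 7 + (280) * x ^ 8 + (-280) * x ^ 9 + (364) * x ^ 10 + (-364) * x ^ 11 +
    (420) * x ^ 12 + (-420) * x ^ 13 + (420) * x ^ 14 + (-56) * x ^ 15 + (56) * x ^ 16 + (-56) * x
    ^ 17 + (56) * x ^ 18 + (-56) * x ^ 19) + s ^ 11 * t ^ 5 * ((-56) * x ^ 0 + (56) * x ^ 1 + (56)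
    * x ^ 3 + (-56) * x ^ 4 + (-56) * x ^ 5 + (112) * x ^ 6 + (-56) * x ^ 7 + (-224) * x ^ 8 +
    (280) * x ^ 9 + (-112) * x ^ 10 + (-168) * x ^ 11 + (280) * x ^ 12 + (-112) * x ^ 13 + (-168) *
    x ^ 14 + (168) * x ^ 15 + (-168) * x ^ 17 + (168) * x ^ 18) + s ^ 12 * t ^ 4 * ((-70) * x ^ 0 +
    (70) * x ^ 1 + (70) * x ^ 4 + (-140) * x ^ 5 + (70) * x ^ 6 + (70) * x ^ 8 + (-168) * x ^ 9 +
    (28) * x ^ 10 + (70) * x ^ 11 + (70) * x ^ 12 + (-168) * x ^ 13 + (28) * x ^ 14 + (140) * x ^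
    16 + (-168) * x ^ 17 + (28) * x ^ 18 + (-28) * x ^ 21 + (28) * x ^ 22) + s ^ 13 * t ^ 3 * ((56)
    * x ^ 5 + (-56) * x ^ 6 + (56) * x ^ 10 + (-56) * x ^ 11 + (56) * x ^ 15 + (-56) * x ^ 16 +
    (56) * x ^ 20 + (-56) * x ^ 21) + s ^ 14 * t ^ 2 * ((20) * x ^ 0 + (-20) * x ^ 1 + (20) * x ^ 5
    + (8) * x ^ 6 + (-28) * x ^ 7 + (20) * x ^ 10 + (8) * x ^ 12 + (-28) * x ^ 13 + (20) * x ^ 15 +
    (8) * x ^ 18 + (-28) * x ^ 19 + (20) * x ^ 20 + (8) * x ^ 24 + (-8) * x ^ 25) + s ^ 15 * t ^ 1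
    * ((8) * x ^ 0 + (-8) * x ^ 1 + (8) * x ^ 5 + (-8) * x ^ 6 + (8) * x ^ 7 + (-8) * x ^ 8 + (8) *
    x ^ 10 + (-8) * x ^ 11 + (8) * x ^ 12 + (-8) * x ^ 13 + (8) * x ^ 14 + (-8) * x ^ 16 + (8) * x
    ^ 17 + (-8) * x ^ 18 + (8) * x ^ 19 + (-8) * x ^ 23 + (8) * x ^ 24) + s ^ 16 * t ^ 0 * ((1) * x
    ^ 0 + (-1) * x ^ 1 + (1) * x ^ 5 + (-1) * x ^ 6 + (1) * x ^ 8 + (-1) * x ^ 9 + (1) * x ^ 10 +
    (-1) * x ^ 11 + (1) * x ^ 13 + (-1) * x ^ 14 + (1) * x ^ 15 + (-1) * x ^ 17 + (1) * x ^ 18 +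
    (-1) * x ^ 19 + (1) * x ^ 20 + (-1) * x ^ 22 + (1) * x ^ 23 + (-1) * x ^ 27 + (1) * x ^ 28)) * h

/-- the degree fourteen identity. -/
theorem p7 (x s t : ℂ) (h : x ^ 4 + x ^ 3 + x ^ 2 + x + 1 = 0) :
    (s ^ 2 + s * t - t ^ 2) ^ 14 + (x ^ 4 * s ^ 2 + s * t - x * t ^ 2) ^ 14
    + (x ^ 3 * s ^ 2 + s * t - x ^ 2 * t ^ 2) ^ 14 + (x ^ 2 * s ^ 2 + s * t - x ^ 3 * t ^ 2) ^ 14
    + (x * s ^ 2 + s * t - x ^ 4 * t ^ 2) ^ 14 + 78125 * (s * t) ^ 14 = 0 := by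
  have h5 : x ^ 5 = 1 := by linear_combination (x - 1) * h
  have a1 := p1 x s t h
  have a2 := p2 x s t h
  have a4 := p4 x s t h
  have s0 := sextic0 s t
  have s1 := sextic s t (x ^ 2) (x ^ 3) (by rw [← pow_mul, mul_comm, pow_mul, h5, one_pow])
    (by rw [← pow_mul, mul_comm, pow_mul, h5, one_pow]) (by rw [← pow_add, h5])
  have s2 := sextic s t (x ^ 4) x (by rw [← pow_mul, mul_comm, pow_mul, h5, one_pow])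
    h5 (by rw [← pow_succ, h5])
  have s3 := sextic s t x (x ^ 4) h5 (by rw [← pow_mul, mul_comm, pow_mul, h5, one_pow])
    (by rw [← pow_succ', h5])
  have s4 := sextic s t (x ^ 3) (x ^ 2) (by rw [← pow_mul, mul_comm, pow_mul, h5, one_pow])
    (by rw [← pow_mul, mul_comm, pow_mul, h5, one_pow]) (by rw [← pow_add, h5])
  have s5 := sexticInf s t
  have e6 : (x ^ 3) ^ 2 = x := by linear_combination x * h5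
  have e8 : (x ^ 4) ^ 2 = x ^ 3 := by linear_combination x ^ 3 * h5
  have e4 : (x ^ 2) ^ 2 = x ^ 4 := by ring
  rw [e4, e6] at s1
  rw [e8] at s2
  rw [e8] at s3
  rw [e4, e6] at s4
  generalize s ^ 2 + s * t - t ^ 2 = q0 at *
  generalize x ^ 4 * s ^ 2 + s * t - x * t ^ 2 = q1 at *
  generalize x ^ 3 * s ^ 2 + s * t - x ^ 2 * t ^ 2 = q2 at *
  generalize x ^ 2 * s ^ 2 + s * t - x ^ 3 * t ^ 2 = q3 at *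
  generalize x * s ^ 2 + s * t - x ^ 4 * t ^ 2 = q4 at *
  generalize kf s t = f at *
  generalize kh s t = g at *
  generalize s * t = b at *
  linear_combination q0 ^ 2 * s0 + q1 ^ 2 * s1 + q2 ^ 2 * s2 + q3 ^ 2 * s3 + q4 ^ 2 * s4
    + 5 * b ^ 2 * s5 + 10 * f * a4 + g * a2 - 5 * f ^ 2 * a1

end Q36.Conic
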