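import Mathlib
import Pool.Agent.Q36.ConicDefs
import Pool.Agent.Q36.ConicId

open scoped LinearAlgebra.Projectivization

namespace Q36.Conic

/-- coefficients of the six icosahedral quadratic forms. -/
def ca (x w : ℂ) : Fin 6 → ℂ := ![1, x ^ 4, x ^ 3, w * x ^ 2, w * x, 0]

def cb (w r : ℂ) : Fin 6 → ℂ := ![1, 1, 1, w, w, w * r]

def cc (x w : ℂ) : Fin 6 → ℂ := ![1, x, x ^ 2, w * x ^ 3, w * x ^ 4, 0]

/-- the linear map `(X, Y, Z) ↦ (a_i (X - i Z) + b_i Y + c_i (X + i Z))`. -/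
noncomputable def L (x w r : ℂ) : (Fin 3 → ℂ) →ₗ[ℂ] (Fin 6 → ℂ) where
  toFun v := fun i => ca x w i * (v 0 - Complex.I * v 2) + cb w r i * v 1
    + cc x w i * (v 0 + Complex.I * v 2)
  map_add' := by
    intro u v
    ext i
    simp only [Pi.add_apply]
    ring
  map_smul' := by
    intro c v
    ext i
    simp only [Pi.smul_apply, smul_eq_mul, RingHom.id_apply]
    ring

theorem L_apply (x w r : ℂ) (v : Fin 3 → ℂ) (i : Fin 6) : L x w r v i =
    ca x w i * (v 0 - Complex.I * v 2) + cb w r i * v 1 + cc x w i * (v 0 + Complex.I * v 2) := rfl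

theorem root_ne {x : ℂ} (h : x ^ 4 + x ^ 3 + x ^ 2 + x + 1 = 0) : x ≠ 1 ∧ x ^ 2 ≠ 1 ∧ x ^ 3 ≠ 1 ∧
    x ^ 4 ≠ 1 ∧ x ≠ 0 := by
  have h5 : x ^ 5 = 1 := by linear_combination (x - 1) * h
  have h1 : x ≠ 1 := by
    rintro rfl
    norm_num at h
  have h0 : x ≠ 0 := by
    rintro rfl
    norm_num at h
  refine ⟨h1, ?_, ?_, ?_, h0⟩
  · intro h2
    apply h1
    have : x ^ 4 = 1 := by
      calc x ^ 4 = (x ^ 2) ^ 2 := by ring
        _ = 1 := by rw [h2]; norm_num
    calc x = x ^ 5 := by rw [pow_succ, this, one_mul]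
      _ = 1 := h5
  · intro h3
    apply h1
    have h6 : x ^ 2 = 1 := by
      calc x ^ 2 = x ^ 3 * x ^ 2 := by rw [h3, one_mul]
        _ = x ^ 5 := by ring
        _ = 1 := h5
    calc x = x ^ 2 * x := by rw [h6, one_mul]
      _ = x ^ 3 := by ring
      _ = 1 := h3
  · intro h4
    apply h1
    calc x = x ^ 4 * x := by rw [h4, one_mul]
      _ = x ^ 5 := by ring
      _ = 1 := h5

theorem minor_ne {x w r : ℂ} (h : x ^ 4 + x ^ 3 + x ^ 2 + x + 1 = 0) (hw : w ≠ 0) (hr : r ≠ 0)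
    (i j : Fin 6) (hij : i ≠ j) : ca x w i * cb w r j - ca x w j * cb w r i ≠ 0 := by
  obtain ⟨h1, h2, h3, h4, h0⟩ := root_ne h
  have g1 : x - 1 ≠ 0 := sub_ne_zero.mpr h1
  have g2 : x ^ 2 - 1 ≠ 0 := sub_ne_zero.mpr h2
  have g3 : x ^ 3 - 1 ≠ 0 := sub_ne_zero.mpr h3
  have g4 : x ^ 4 - 1 ≠ 0 := sub_ne_zero.mpr h4
  -- reduce to the ratios
  let ρ : Fin 6 → ℂ := ![1, x ^ 4, x ^ 3, x ^ 2, x, 0]
  have hb : ∀ i, cb w r i ≠ 0 := by
    intro i
    fin_cases i <;> simp [cb, hw, hr]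
  have ha : ∀ i, ca x w i = ρ i * cb w r i := by
    intro i
    fin_cases i <;> simp [ca, cb, ρ, mul_comm]
  have hρ : ∀ i j, i < j → ρ i - ρ j ≠ 0 := by
    intro i j hij
    have k1 : (1 : ℂ) - x ≠ 0 := sub_ne_zero.mpr (Ne.symm h1)
    have k2 : (1 : ℂ) - x ^ 2 ≠ 0 := sub_ne_zero.mpr (Ne.symm h2)
    have k3 : (1 : ℂ) - x ^ 3 ≠ 0 := sub_ne_zero.mpr (Ne.symm h3)
    have k4 : (1 : ℂ) - x ^ 4 ≠ 0 := sub_ne_zero.mpr (Ne.symm h4)
    have l1 : x ^ 4 - x ^ 3 ≠ 0 := by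
      have : x ^ 4 - x ^ 3 = x ^ 3 * (x - 1) := by ring
      rw [this]; exact mul_ne_zero (pow_ne_zero _ h0) g1
    have l2 : x ^ 4 - x ^ 2 ≠ 0 := by
      have : x ^ 4 - x ^ 2 = x ^ 2 * (x ^ 2 - 1) := by ring
      rw [this]; exact mul_ne_zero (pow_ne_zero _ h0) g2
    have l3 : x ^ 4 - x ≠ 0 := by
      have : x ^ 4 - x = x * (x ^ 3 - 1) := by ring
      rw [this]; exact mul_ne_zero h0 g3
    have l4 : x ^ 3 - x ^ 2 ≠ 0 := by
      have : x ^ 3 - x ^ 2 = x ^ 2 * (x - 1) := by ring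
      rw [this]; exact mul_ne_zero (pow_ne_zero _ h0) g1
    have l5 : x ^ 3 - x ≠ 0 := by
      have : x ^ 3 - x = x * (x ^ 2 - 1) := by ring
      rw [this]; exact mul_ne_zero h0 g2
    have l6 : x ^ 2 - x ≠ 0 := by
      have : x ^ 2 - x = x * (x - 1) := by ring
      rw [this]; exact mul_ne_zero h0 g1
    fin_cases i <;> fin_cases j <;> first
      | exact absurd hij (by decide)
      | (simp [ρ]; first | assumption | skip)
  have e : ca x w i * cb w r j - ca x w j * cb w r i = (ρ i - ρ j) * (cb w r i * cb w r j) := by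
    rw [ha, ha]; ring
  rw [e]
  refine mul_ne_zero ?_ (mul_ne_zero (hb i) (hb j))
  rcases lt_or_gt_of_ne hij with hlt | hgt
  · exact hρ i j hlt
  · have := hρ j i hgt
    intro hh
    apply this
    linear_combination -hh

theorem L_inj {x w r : ℂ} (h : x ^ 4 + x ^ 3 + x ^ 2 + x + 1 = 0) (hw : w ≠ 0) (hr : r ≠ 0) :
    Function.Injective (L x w r) := by
  obtain ⟨h1, h2, h3, h4, h0⟩ := root_ne h
  rw [← LinearMap.ker_eq_bot, LinearMap.ker_eq_bot']
  intro v hv
  have e5 : L x w r v 5 = 0 := by rw [hv]; rfl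
  have e0 : L x w r v 0 = 0 := by rw [hv]; rfl
  have e1 : L x w r v 1 = 0 := by rw [hv]; rfl
  rw [L_apply] at e0 e1 e5
  simp [ca, cb, cc] at e0 e1 e5
  have k1 : v 1 = 0 := by
    rcases e5 with h | h
    · rcases h with h | h
      · exact absurd h hw
      · exact absurd h hr
    · exact h
  have k0 : v 0 = 0 := by
    rw [k1] at e0
    linear_combination e0 / 2
  have k2 : v 2 = 0 := by
    rw [k1, k0] at e1
    have h6 : (x * (1 - x ^ 3) * Complex.I) * v 2 = 0 := by linear_combination e1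
    have h7 : x * (1 - x ^ 3) * Complex.I ≠ 0 := by
      refine mul_ne_zero (mul_ne_zero h0 (sub_ne_zero.mpr (Ne.symm h3))) Complex.I_ne_zero
    exact (mul_eq_zero.mp h6).resolve_left h7
  ext k
  fin_cases k
  · exact k0
  · exact k1
  · exact k2

theorem F_L {x w r : ℂ} (h : x ^ 4 + x ^ 3 + x ^ 2 + x + 1 = 0) (hw : w ^ 14 = -1) (hr : r ^ 2 = 5)
    (v : Fin 3 → ℂ) (hv : v 0 ^ 2 + v 1 ^ 2 + v 2 ^ 2 = 0) : F 14 (L x w r v) = 0 := by
  obtain ⟨s, t, hs, ht, hst⟩ : ∃ s t : ℂ, s ^ 2 = v 0 - Complex.I * v 2 ∧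
      t ^ 2 = - (v 0 + Complex.I * v 2) ∧ s * t = v 1 := by
    obtain ⟨s, hs⟩ := IsAlgClosed.exists_pow_nat_eq (v 0 - Complex.I * v 2) (by norm_num : 0 < 2)
    obtain ⟨t, ht⟩ := IsAlgClosed.exists_pow_nat_eq (-(v 0 + Complex.I * v 2)) (by norm_num : 0 < 2)
    have h1 : (s * t - v 1) * (s * t + v 1) = 0 := by
      have : (s * t - v 1) * (s * t + v 1) = s ^ 2 * t ^ 2 - v 1 ^ 2 := by ring
      rw [this, hs, ht]
      linear_combination (v 2) ^ 2 * Complex.I_sq - hv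
    rcases mul_eq_zero.mp h1 with h2 | h2
    · exact ⟨s, t, hs, ht, sub_eq_zero.mp h2⟩
    · refine ⟨s, -t, hs, by rw [neg_sq]; exact ht, ?_⟩
      linear_combination -h2
  have hc : ∀ i, L x w r v i = ca x w i * s ^ 2 + cb w r i * (s * t) - cc x w i * t ^ 2 := by
    intro i
    rw [L_apply, hs, ht, hst]
    ring
  have key := p7 x s t h
  have hr14 : r ^ 14 = 78125 := by
    calc r ^ 14 = (r ^ 2) ^ 7 := by ring
      _ = 78125 := by rw [hr]; norm_num
  have c0 : L x w r v 0 = s ^ 2 + s * t - t ^ 2 := by rw [hc]; simp [ca, cb, cc]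
  have c1 : L x w r v 1 = x ^ 4 * s ^ 2 + s * t - x * t ^ 2 := by rw [hc]; simp [ca, cb, cc]
  have c2 : L x w r v 2 = x ^ 3 * s ^ 2 + s * t - x ^ 2 * t ^ 2 := by rw [hc]; simp [ca, cb, cc]
  have c3 : L x w r v 3 = w * (x ^ 2 * s ^ 2 + s * t - x ^ 3 * t ^ 2) := by
    rw [hc]; simp [ca, cb, cc]; ring
  have c4 : L x w r v 4 = w * (x * s ^ 2 + s * t - x ^ 4 * t ^ 2) := by
    rw [hc]; simp [ca, cb, cc]; ring
  have c5 : L x w r v 5 = w * (r * (s * t)) := by
    rw [hc]; simp [ca, cb, cc]; ring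
  rw [F, c0, c1, c2, c3, c4, c5, mul_pow w, mul_pow w, mul_pow w, mul_pow r, hw, hr14]
  linear_combination key

theorem lower : ∃ C : Set (ℙ ℂ (Fin 6 → ℂ)), IsConic C ∧ C ⊆ Xd 14 ∧ ¬ Degenerate C := by
  obtain ⟨x, hx⟩ : ∃ x : ℂ, x ^ 4 + x ^ 3 + x ^ 2 + x + 1 = 0 := by
    obtain ⟨x, hx⟩ := IsAlgClosed.exists_root (Polynomial.cyclotomic 5 ℂ) (by
      rw [Polynomial.degree_cyclotomic]
      decide)
    refine ⟨x, ?_⟩
    have := hx
    rw [Polynomial.IsRoot.def] at this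
    have h5 : Fact (Nat.Prime 5) := ⟨by norm_num⟩
    rw [Polynomial.cyclotomic_prime, Polynomial.eval_geom_sum] at this
    rw [← this]
    simp [Finset.sum_range_succ]
    ring
  obtain ⟨w, hw⟩ := IsAlgClosed.exists_pow_nat_eq (-1 : ℂ) (by norm_num : 0 < 14)
  obtain ⟨r, hr⟩ := IsAlgClosed.exists_pow_nat_eq (5 : ℂ) (by norm_num : 0 < 2)
  have hw0 : w ≠ 0 := by
    rintro rfl
    norm_num at hw
  have hr0 : r ≠ 0 := by
    rintro rfl
    norm_num at hr
  have hinj := L_inj hx hw0 hr0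
  let v : Fin 3 → Fin 6 → ℂ := fun k => L x w r (Pi.single k 1)
  have hsum : ∀ y : Fin 3 → ℂ, ∑ k, y k • v k = L x w r y := by
    intro y
    have h1 : y = ∑ k, y k • (Pi.single k 1 : Fin 3 → ℂ) := by
      ext k
      simp [Finset.sum_apply, Pi.single_apply]
    conv_rhs => rw [h1]
    rw [map_sum]
    refine Finset.sum_congr rfl fun k _ => ?_
    rw [map_smul]
  have hquad : ∀ y : Fin 3 → ℂ, quad (1 : Matrix (Fin 3) (Fin 3) ℂ) y = y 0 ^ 2 + y 1 ^ 2 + y 2 ^ 2 := by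
    intro y
    simp [quad, Fin.sum_univ_three, Matrix.one_apply]
    ring
  refine ⟨{p | ∃ y : Fin 3 → ℂ, quad 1 y = 0 ∧ p.rep = ∑ k, y k • v k},
    ⟨v, 1, ?_, Matrix.isSymm_one, by simp, rfl⟩, ?_, ?_⟩
  · have h1 : LinearIndependent ℂ (fun k : Fin 3 => (Pi.single k 1 : Fin 3 → ℂ)) := by
      have := (Pi.basisFun ℂ (Fin 3)).linearIndependent
      convert this using 1
      ext k
      simp
    exact h1.map' (L x w r) (LinearMap.ker_eq_bot.mpr hinj)
  · rintro p ⟨y, hy, hp⟩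
    change F 14 p.rep = 0
    rw [hp, hsum]
    rw [hquad] at hy
    exact F_L hx hw hr y hy
  · rintro ⟨i, j, hij, a, b, hab, hall⟩
    have h1 : ∀ s t : ℂ, a * (ca x w i * s ^ 2 + cb w r i * (s * t) - cc x w i * t ^ 2)
        - b * (ca x w j * s ^ 2 + cb w r j * (s * t) - cc x w j * t ^ 2) = 0 := by
      intro s t
      let y : Fin 3 → ℂ := ![(s ^ 2 - t ^ 2) / 2, s * t, Complex.I * (s ^ 2 + t ^ 2) / 2]
      have hvQ : quad (1 : Matrix (Fin 3) (Fin 3) ℂ) y = 0 := by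
        rw [hquad]
        simp only [y, Matrix.cons_val_zero, Matrix.cons_val_one, Matrix.cons_val]
        linear_combination ((s ^ 2 + t ^ 2) ^ 2 / 4) * Complex.I_sq
      have hA : y 0 - Complex.I * y 2 = s ^ 2 := by
        simp only [y, Matrix.cons_val_zero, Matrix.cons_val]
        linear_combination (-(s ^ 2 + t ^ 2) / 2) * Complex.I_sq
      have hC : y 0 + Complex.I * y 2 = - t ^ 2 := by
        simp only [y, Matrix.cons_val_zero, Matrix.cons_val]
        linear_combination ((s ^ 2 + t ^ 2) / 2) * Complex.I_sq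
      have hB : y 1 = s * t := by
        simp only [y, Matrix.cons_val_one, Matrix.cons_val]
        try rfl
      have hL : ∀ i, L x w r y i = ca x w i * s ^ 2 + cb w r i * (s * t) - cc x w i * t ^ 2 := by
        intro i
        rw [L_apply, hA, hC, hB]
        ring
      by_cases hz : L x w r y = 0
      · rw [← hL, ← hL, hz]
        simp
      · have h2 := hall _ (mk_mem_conic v 1 y hvQ (L x w r y) hz (hsum y).symm)
        rw [mk_lin, hL, hL] at h2
        exact h2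
    have e1 := h1 1 0
    have e2 := h1 0 1
    have e3 := h1 1 1
    have k1 : a * ca x w i = b * ca x w j := by linear_combination e1
    have k3 : a * cc x w i = b * cc x w j := by linear_combination -e2
    have k2 : a * cb w r i = b * cb w r j := by linear_combination e3 - k1 + k3
    have hm := minor_ne hx hw0 hr0 i j hij
    have ha : a = 0 := by
      have : a * (ca x w i * cb w r j - ca x w j * cb w r i) = 0 := by
        linear_combination cb w r j * k1 - ca x w j * k2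
      exact (mul_eq_zero.mp this).resolve_right hm
    have hb : b = 0 := by
      have : b * (ca x w i * cb w r j - ca x w j * cb w r i) = 0 := by
        linear_combination cb w r i * k1 - ca x w i * k2
      exact (mul_eq_zero.mp this).resolve_right hm
    exact hab ⟨ha, hb⟩

end Q36.Conic
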