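import Mathlib

open Polynomial Matrix

namespace Q36.Wr

variable {K : Type*} [Field K]

/-- Wronskian matrix of a family of polynomials. -/
noncomputable def wm {m : ℕ} (u : Fin m → K[X]) : Matrix (Fin m) (Fin m) K[X] :=
  Matrix.of fun i j => derivative^[(j : ℕ)] (u i)

/-- Wronskian determinant of a family of polynomials. -/
noncomputable def W {m : ℕ} (u : Fin m → K[X]) : K[X] := (wm u).det

theorem prod_coeff {ι : Type*} (s : Finset ι) (f : ι → K[X]) (e : ι → ℕ)
    (h : ∀ i ∈ s, (f i).natDegree ≤ e i) :
    (∏ i ∈ s, f i).natDegree ≤ ∑ i ∈ s, e i ∧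
    (∏ i ∈ s, f i).coeff (∑ i ∈ s, e i) = ∏ i ∈ s, (f i).coeff (e i) := by
  classical
  induction s using Finset.induction_on with
  | empty => simp
  | insert a s ha ih =>
    have h1 := ih (fun i hi => h i (Finset.mem_insert_of_mem hi))
    have h2 := h a (Finset.mem_insert_self a s)
    rw [Finset.prod_insert ha, Finset.sum_insert ha, Finset.prod_insert ha]
    refine ⟨?_, ?_⟩
    · exact (natDegree_mul_le).trans (Nat.add_le_add h2 h1.1)
    · rw [Polynomial.coeff_mul_add_eq_of_natDegree_le h2 h1.1, h1.2]

/-- degree and top coefficient of a determinant with rows of bounded degree. -/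
theorem det_coeff {m : ℕ} (M : Matrix (Fin m) (Fin m) K[X]) (e : Fin m → ℕ)
    (h : ∀ i j, (M i j).natDegree ≤ e i) :
    M.det.natDegree ≤ ∑ i, e i ∧
    M.det.coeff (∑ i, e i) = (Matrix.of fun i j => (M i j).coeff (e i)).det := by
  have key : ∀ σ : Equiv.Perm (Fin m), (∏ i, M (σ i) i).natDegree ≤ ∑ i, e i ∧
      (∏ i, M (σ i) i).coeff (∑ i, e i) = ∏ i, (M (σ i) i).coeff (e (σ i)) := by
    intro σ
    have h3 : ∑ i, e (σ i) = ∑ i, e i := Equiv.sum_comp σ e
    rw [← h3]
    exact prod_coeff Finset.univ (fun i => M (σ i) i) (fun i => e (σ i)) (fun i _ => h _ _)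
  constructor
  · rw [Matrix.det_apply]
    refine Polynomial.natDegree_sum_le_of_forall_le _ _ ?_
    intro σ _
    refine (Polynomial.natDegree_smul_le _ _).trans (key σ).1
  · rw [Matrix.det_apply, Matrix.det_apply, Polynomial.finsetSum_coeff]
    refine Finset.sum_congr rfl ?_
    intro σ _
    rw [Polynomial.coeff_smul, (key σ).2]
    simp

theorem det_scale {m : ℕ} (u : Fin m → K[X]) :
    (Matrix.of fun i j : Fin m => (X : K[X]) ^ (j : ℕ) * wm u i j).det = X ^ (∑ j : Fin m, (j : ℕ)) * W u := by
  rw [Matrix.det_mul_row, W, Finset.prod_pow_eq_pow_sum]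

theorem coeff_row (p : K[X]) (e j : ℕ) (h : p.natDegree ≤ e) :
    (X ^ j * derivative^[j] p : K[X]).natDegree ≤ e ∧
    (X ^ j * derivative^[j] p : K[X]).coeff e = (e.descFactorial j : K) * p.coeff e := by
  have hd : (derivative^[j] p).natDegree ≤ e - j :=
    (Polynomial.natDegree_iterate_derivative p j).trans (by omega)
  by_cases hj : j ≤ e
  · refine ⟨?_, ?_⟩
    · refine natDegree_mul_le.trans ?_
      rw [natDegree_X_pow]
      omega
    · rw [Polynomial.coeff_X_pow_mul']
      simp only [hj, if_true]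
      rw [Polynomial.coeff_iterate_derivative]
      rw [Nat.sub_add_cancel hj]
      simp [nsmul_eq_mul]
  · have hz : derivative^[j] p = 0 := by
      apply Polynomial.iterate_derivative_eq_zero
      omega
    rw [hz]
    refine ⟨by simp, ?_⟩
    rw [Nat.descFactorial_of_lt (by omega)]
    simp

/-- Wronskian of polynomials with distinct degrees is nonzero, and its degree. -/
theorem W_deg [CharZero K] {m : ℕ} (v : Fin m → K[X]) (hv : ∀ i, v i ≠ 0)
    (hinj : Function.Injective fun i => (v i).natDegree) :
    W v ≠ 0 ∧ (∑ j : Fin m, (j : ℕ)) + (W v).natDegree ≤ ∑ i, (v i).natDegree := by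
  set e : Fin m → ℕ := fun i => (v i).natDegree with he
  have h1 := det_coeff (Matrix.of fun i j => (X : K[X]) ^ (j : ℕ) * wm v i j) e
    (fun i j => (coeff_row (v i) (e i) j le_rfl).1)
  rw [det_scale] at h1
  have h2 : (X ^ (∑ j : Fin m, (j : ℕ)) * W v : K[X]).coeff (∑ i, e i) ≠ 0 := by
    rw [h1.2]
    have h3 : (Matrix.of fun i j : Fin m => ((Matrix.of fun i j : Fin m => (X : K[X]) ^ (j : ℕ) * wm v i j) i j).coeff (e i))
        = Matrix.of fun i j : Fin m => (v i).leadingCoeff * (Matrix.of fun i j : Fin m => ((descPochhammer K j).eval ((e i : ℕ) : K))) i j := by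
      ext i j
      have := (coeff_row (v i) (e i) j le_rfl).2
      simp only [Matrix.of_apply, wm]
      rw [this, descPochhammer_eval_eq_descFactorial, Polynomial.leadingCoeff, mul_comm]
    rw [h3, Matrix.det_mul_column]
    refine mul_ne_zero (Finset.prod_ne_zero_iff.mpr fun i _ => by simpa using hv i) ?_
    have h4 := Matrix.det_eval_matrixOfPolynomials_eq_det_vandermonde (fun i : Fin m => ((e i : ℕ) : K))
      (fun j : Fin m => descPochhammer K j) (fun j => descPochhammer_natDegree K j) (fun j => monic_descPochhammer K j)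
    rw [← h4]
    rw [Matrix.det_vandermonde_ne_zero_iff]
    intro i j hij
    have h9 : ((e i : ℕ) : K) = ((e j : ℕ) : K) := hij
    have h10 : e i = e j := by exact_mod_cast h9
    exact hinj h10
  have h5 : W v ≠ 0 := by
    intro h
    apply h2
    rw [h]; simp
  refine ⟨h5, ?_⟩
  have h6 := h1.1
  rw [Polynomial.natDegree_mul (pow_ne_zero _ X_ne_zero) h5, natDegree_X_pow] at h6
  exact h6

/-- change of basis. -/
theorem W_span {m : ℕ} (u v : Fin m → K[X]) (h : ∀ i, v i ∈ Submodule.span K (Set.range u)) :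
    ∃ c : K, W v = C c * W u := by
  have h1 : ∀ i, ∃ b : Fin m → K, ∑ j, b j • u j = v i := by
    intro i
    have := h i
    rw [Submodule.mem_span_range_iff_exists_fun] at this
    exact this
  choose b hb using h1
  refine ⟨(Matrix.of b).det, ?_⟩
  have h2 : wm v = (Matrix.of b).map (C : K →+* K[X]) * wm u := by
    ext1 i j
    simp only [wm, Matrix.of_apply, Matrix.mul_apply, Matrix.map_apply]
    rw [← hb i]
    rw [Polynomial.iterate_derivative_sum]
    refine Finset.sum_congr rfl ?_
    intro k _
    rw [Polynomial.iterate_derivative_smul, smul_eq_C_mul]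
  rw [W, h2, Matrix.det_mul, W]
  congr 1
  exact (RingHom.map_det (C : K →+* K[X]) (Matrix.of b)).symm

theorem W_dvd {m : ℕ} (u : Fin m → K[X]) (q : Fin m → K[X])
    (h : ∀ i j : Fin m, q i ∣ derivative^[(j : ℕ)] (u i)) : (∏ i, q i) ∣ W u := by
  have h1 : ∀ i j : Fin m, ∃ r, derivative^[(j : ℕ)] (u i) = q i * r := fun i j => h i j
  choose r hr using h1
  have h2 : wm u = Matrix.of fun i j => q i * (Matrix.of r) i j := by
    ext1 i j
    simp [wm, hr i j]
  rw [W, h2, Matrix.det_mul_column]
  exact Dvd.intro _ rfl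

theorem bounded_deg (U : Submodule K K[X]) [FiniteDimensional K U] :
    ∃ N : ℕ, ∀ p ∈ U, p.natDegree ≤ N := by
  obtain ⟨s, hs⟩ := (Module.Finite.iff_fg.mp (inferInstance : Module.Finite K U))
  refine ⟨s.sup natDegree, ?_⟩
  intro p hp
  have h1 : U ≤ Polynomial.degreeLE K (s.sup natDegree : ℕ) := by
    rw [← hs, Submodule.span_le]
    intro q hq
    simp only [SetLike.mem_coe, Polynomial.mem_degreeLE]
    exact Polynomial.degree_le_of_natDegree_le (Finset.le_sup (f := natDegree) hq)
  exact Polynomial.natDegree_le_of_degree_le (Polynomial.mem_degreeLE.mp (h1 hp))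

/-- echelon basis. -/
theorem echelon : ∀ (m : ℕ) (U : Submodule K K[X]) [FiniteDimensional K U],
    Module.finrank K U = m → ∃ v : Fin m → K[X], (∀ i, v i ∈ U ∧ v i ≠ 0) ∧
      StrictMono fun i => (v i).natDegree := by
  intro m
  induction m with
  | zero =>
    intro U _ _
    exact ⟨fun i => i.elim0, fun i => i.elim0, fun i => i.elim0⟩
  | succ m ih =>
    intro U _ hU
    obtain ⟨N, hN⟩ := bounded_deg U
    -- an element of maximal degree
    have hne : ∃ p ∈ U, p ≠ 0 := by
      by_contra hcon
      push Not at hcon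
      have : U = ⊥ := by
        rw [eq_bot_iff]
        intro p hp
        exact hcon p hp
      rw [this] at hU
      simp at hU
    let S : Set ℕ := {k | ∃ p ∈ U, p ≠ 0 ∧ p.natDegree = k}
    have hSne : S.Nonempty := by
      obtain ⟨p, hp, hp0⟩ := hne
      exact ⟨p.natDegree, p, hp, hp0, rfl⟩
    have hSb : BddAbove S := ⟨N, by rintro k ⟨p, hp, _, rfl⟩; exact hN p hp⟩
    have hmem := Nat.sSup_mem hSne hSb
    obtain ⟨p, hp, hp0, hpe⟩ := hmem
    set e := sSup S with he
    have hmax : ∀ q ∈ U, q ≠ 0 → q.natDegree ≤ e := by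
      intro q hq hq0
      exact le_csSup hSb ⟨q, hq, hq0, rfl⟩
    let f : U →ₗ[K] K := (Polynomial.lcoeff K e).comp U.subtype
    have hf : LinearMap.range f = ⊤ := by
      rw [LinearMap.range_eq_top]
      apply LinearMap.surjective
      intro h0
      have h1 : f ⟨p, hp⟩ = 0 := by rw [h0]; rfl
      have h2 : p.coeff e = 0 := h1
      rw [← hpe] at h2
      exact hp0 (Polynomial.leadingCoeff_eq_zero.mp h2)
    have hker := LinearMap.finrank_range_add_finrank_ker f
    rw [hf, finrank_top, Module.finrank_self, hU] at hker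
    have hk : Module.finrank K (LinearMap.ker f) = m := by omega
    let U' : Submodule K K[X] := (LinearMap.ker f).map U.subtype
    have hU' : Module.finrank K U' = m := by
      rw [← hk]
      exact Submodule.finrank_map_subtype_eq U _
    obtain ⟨v, hv1, hv2⟩ := ih U' hU'
    have hv3 : ∀ i, v i ∈ U ∧ (v i).natDegree < e := by
      intro i
      obtain ⟨⟨q, hq⟩, hq1, hq2⟩ := (hv1 i).1
      have hq3 : q = v i := hq2
      have hq4 : q.coeff e = 0 := hq1
      subst hq3
      refine ⟨hq, lt_of_le_of_ne (hmax _ hq (hv1 i).2) ?_⟩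
      intro h
      rw [← h] at hq4
      exact (hv1 i).2 (Polynomial.leadingCoeff_eq_zero.mp hq4)
    refine ⟨Fin.snoc v p, ?_, ?_⟩
    · intro i
      refine Fin.lastCases ?_ (fun j => ?_) i
      · simp [hp, hp0]
      · simp [(hv3 j).1, (hv1 j).2]
    · intro i j hij
      revert hij
      refine Fin.lastCases ?_ (fun j' => ?_) j
      · refine Fin.lastCases ?_ (fun i' => ?_) i
        · intro h; exact absurd h (lt_irrefl _)
        · intro _
          simp only [Fin.snoc_castSucc, Fin.snoc_last]
          rw [hpe]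
          exact (hv3 i').2
      · refine Fin.lastCases ?_ (fun i' => ?_) i
        · intro h
          exact absurd h (not_lt.mpr (Fin.le_last _))
        · intro h
          simp only [Fin.snoc_castSucc]
          exact hv2 (by simpa using h)

theorem echelon_of_indep {m : ℕ} (u : Fin m → K[X]) (hu : LinearIndependent K u) :
    ∃ v : Fin m → K[X], (∀ i, v i ∈ Submodule.span K (Set.range u) ∧ v i ≠ 0) ∧
      StrictMono fun i => (v i).natDegree := by
  have : FiniteDimensional K (Submodule.span K (Set.range u)) :=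
    FiniteDimensional.span_of_finite K (Set.finite_range u)
  apply echelon m (Submodule.span K (Set.range u))
  rw [finrank_span_eq_card hu, Fintype.card_fin]

end Q36.Wr
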