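import Mathlib
import Pool.Agent.Q36.Wr

open Polynomial

namespace Q36.Wr

variable {K : Type*} [Field K]

theorem sum_strictMono {m : ℕ} (f : Fin m → ℕ) (hf : StrictMono f) (D : ℕ) (hD : ∀ i, f i ≤ D) :
    ∑ i, f i + ∑ i : Fin m, (i : ℕ) ≤ m * D := by
  have h1 : ∀ (n : ℕ) (i : Fin m), (h : (i : ℕ) + n < m) → f i + n ≤ f ⟨i + n, h⟩ := by
    intro n
    induction n with
    | zero => intro i h; simp
    | succ n ih =>
      intro i h
      have h2 := ih i (by omega)
      have h3 : f ⟨i + n, by omega⟩ < f ⟨i + (n + 1), h⟩ := hf (by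
        rw [Fin.lt_def]; simp)
      omega
  have h4 : ∀ i : Fin m, f i + ((Fin.rev i : Fin m) : ℕ) ≤ D := by
    intro i
    have h5 := i.2
    have h6 := h1 (m - 1 - i) i (by omega)
    have h7 := hD ⟨i + (m - 1 - i), by omega⟩
    rw [Fin.val_rev]
    omega
  calc ∑ i, f i + ∑ i : Fin m, (i : ℕ) = ∑ i, f i + ∑ i : Fin m, ((Fin.rev i : Fin m) : ℕ) := by
        congr 1
        exact (Equiv.sum_comp Fin.revPerm (fun i : Fin m => (i : ℕ))).symm
    _ = ∑ i, (f i + ((Fin.rev i : Fin m) : ℕ)) := by rw [Finset.sum_add_distrib]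
    _ ≤ ∑ i : Fin m, D := Finset.sum_le_sum fun i _ => h4 i
    _ = m * D := by simp

/-- main estimate for a minimal relation between powers. -/
theorem estimate [CharZero K] [IsAlgClosed K] {ι : Type*} [DecidableEq ι] (S : Finset ι)
    (m d k : ℕ) (hS : S.card = m + 1) (P : ι → K[X])
    (hP : ∀ i ∈ S, (P i).natDegree = k) (hP0 : ∀ i ∈ S, P i ≠ 0)
    (hcommon : ∀ x : K, ∃ i ∈ S, ¬ (P i).IsRoot x)
    (c : ι → K) (hc : ∀ i ∈ S, c i ≠ 0) (hrel : ∑ i ∈ S, c i • (P i) ^ d = 0)
    (hind : ∀ i0 ∈ S, LinearIndependent K (fun i : (S.erase i0 : Finset ι) => P i ^ d)) :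
    (d + 1 - m) * ((m + 1) * k) + (∑ j : Fin m, (j : ℕ)) + (∑ j : Fin m, (j : ℕ)) ≤ m * (d * k) := by
  have hSne : S.Nonempty := by
    rw [← Finset.card_pos]; omega
  obtain ⟨i1, hi1⟩ := hSne
  have hcard : ∀ i ∈ S, (S.erase i).card = m := by
    intro i hi
    rw [Finset.card_erase_of_mem hi, hS]; rfl
  let e : ∀ i, i ∈ S → (Fin m ≃ (S.erase i : Finset ι)) := fun i hi =>
    (finCongr (hcard i hi).symm).trans (S.erase i).equivFin.symm
  let u : ∀ i, i ∈ S → Fin m → K[X] := fun i hi j => P (e i hi j) ^ d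
  have hu1 : LinearIndependent K (u i1 hi1) := by
    have := (hind i1 hi1).comp (e i1 hi1) (e i1 hi1).injective
    exact this
  obtain ⟨v, hv1, hv2⟩ := echelon_of_indep (u i1 hi1) hu1
  -- spans
  have hspan : ∀ i (hi : i ∈ S), ∀ j ∈ S, P j ^ d ∈ Submodule.span K (Set.range (u i hi)) := by
    intro i hi
    have h1 : ∀ j ∈ S.erase i, P j ^ d ∈ Submodule.span K (Set.range (u i hi)) := by
      intro j hj
      apply Submodule.subset_span
      refine ⟨(e i hi).symm ⟨j, hj⟩, ?_⟩
      simp [u]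
    intro j hj
    by_cases hji : j = i
    · subst hji
      have h2 : c j • P j ^ d = - ∑ l ∈ S.erase j, c l • P l ^ d := by
        rw [← Finset.add_sum_erase S _ hj] at hrel
        exact eq_neg_of_add_eq_zero_left hrel
      have h3 : P j ^ d = (c j)⁻¹ • (- ∑ l ∈ S.erase j, c l • P l ^ d) := by
        rw [← h2, smul_smul, inv_mul_cancel₀ (hc j hj), one_smul]
      rw [h3]
      apply Submodule.smul_mem
      apply Submodule.neg_mem
      apply Submodule.sum_mem
      intro l hl
      exact Submodule.smul_mem _ _ (h1 l hl)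
    · exact h1 j (Finset.mem_erase.mpr ⟨hji, hj⟩)
  have hspan2 : ∀ i (hi : i ∈ S), ∀ j, v j ∈ Submodule.span K (Set.range (u i hi)) := by
    intro i hi j
    have h1 : Submodule.span K (Set.range (u i1 hi1)) ≤ Submodule.span K (Set.range (u i hi)) := by
      rw [Submodule.span_le]
      rintro _ ⟨l, rfl⟩
      exact hspan i hi _ (Finset.mem_of_mem_erase (e i1 hi1 l).2)
    exact h1 (hv1 j).1
  have hW := W_deg v (fun i => (hv1 i).2) hv2.injective
  have hdeg : ∀ i, (v i).natDegree ≤ d * k := by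
    intro i
    have h1 : Submodule.span K (Set.range (u i1 hi1)) ≤ Polynomial.degreeLE K ((d * k : ℕ) : WithBot ℕ) := by
      rw [Submodule.span_le]
      rintro _ ⟨l, rfl⟩
      simp only [SetLike.mem_coe, Polynomial.mem_degreeLE]
      apply Polynomial.degree_le_of_natDegree_le
      have h2 := Finset.mem_of_mem_erase (e i1 hi1 l).2
      simp only [u]
      rw [Polynomial.natDegree_pow, hP _ h2]
    exact Polynomial.natDegree_le_of_degree_le (Polynomial.mem_degreeLE.mp (h1 (hv1 i).1))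
  have hsum := sum_strictMono (fun i => (v i).natDegree) hv2 (d * k) hdeg
  -- divisibility
  have hdiv : ∀ i ∈ S, (∏ j ∈ S.erase i, P j ^ (d + 1 - m)) ∣ W v := by
    intro i hi
    obtain ⟨b, hb⟩ := W_span (u i hi) v (hspan2 i hi)
    rw [hb]
    apply Dvd.dvd.mul_left
    have h1 := W_dvd (u i hi) (fun j => P (e i hi j) ^ (d + 1 - m)) (by
      intro a j
      have h2 := Polynomial.pow_sub_dvd_iterate_derivative_pow (P (e i hi a)) d j
      refine dvd_trans (pow_dvd_pow _ ?_) h2
      have := j.2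
      omega)
    have h3 : ∏ j ∈ S.erase i, P j ^ (d + 1 - m) = ∏ j, P (e i hi j) ^ (d + 1 - m) := by
      rw [← Finset.prod_coe_sort]
      exact (Equiv.prod_comp (e i hi) (fun j : (S.erase i : Finset ι) => P j ^ (d + 1 - m))).symm
    rw [h3]
    exact h1
  have hne : ∀ T ⊆ S, (∏ j ∈ T, P j ^ (d + 1 - m)) ≠ 0 := by
    intro T hT
    exact Finset.prod_ne_zero_iff.mpr fun j hj => pow_ne_zero _ (hP0 j (hT hj))
  have hroots : (∏ j ∈ S, P j ^ (d + 1 - m)).roots ≤ (W v).roots := by
    classical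
    rw [Multiset.le_iff_count]
    intro x
    obtain ⟨i, hi, hx⟩ := hcommon x
    have h1 := Polynomial.roots.le_of_dvd hW.1 (hdiv i hi)
    have h2 := (Multiset.le_iff_count.mp h1) x
    refine le_trans (le_of_eq ?_) h2
    rw [← Finset.mul_prod_erase S _ hi, Polynomial.roots_mul, Multiset.count_add,
      Polynomial.roots_pow, Multiset.count_nsmul, Polynomial.count_roots,
      Polynomial.rootMultiplicity_eq_zero hx]
    · simp
    · exact mul_ne_zero (pow_ne_zero _ (hP0 i hi)) (hne (S.erase i) (Finset.erase_subset _ _))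
  have hc1 := Multiset.card_le_card hroots
  have hc2 : (∏ j ∈ S, P j ^ (d + 1 - m)).roots.card = (d + 1 - m) * ((m + 1) * k) := by
    rw [← (IsAlgClosed.splits (∏ j ∈ S, P j ^ (d + 1 - m))).natDegree_eq_card_roots]
    rw [Polynomial.natDegree_prod _ _ (fun j hj => pow_ne_zero _ (hP0 j hj))]
    rw [Finset.sum_congr rfl (fun j hj => by rw [Polynomial.natDegree_pow, hP j hj])]
    rw [Finset.sum_const, hS, smul_eq_mul]
    ring
  have hc3 := Polynomial.card_roots' (W v)
  have hW2 := hW.2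
  omega

end Q36.Wr
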