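import Mathlib
import Pool.Agent.Q36.WrBound

open Polynomial

namespace Q36.Wr

variable {K : Type*} [Field K]

/-- minimal dependent subfamily. -/
theorem exists_circuit {n : ℕ} (u : Fin n → K[X]) (c : Fin n → K) (hc : c ≠ 0)
    (hrel : ∑ i, c i • u i = 0) :
    ∃ (S : Finset (Fin n)) (b : Fin n → K), S.Nonempty ∧ (∀ i ∈ S, b i ≠ 0) ∧
      ∑ i ∈ S, b i • u i = 0 ∧
      ∀ i0 ∈ S, LinearIndependent K (fun i : (S.erase i0 : Finset (Fin n)) => u i) := by
  classical
  let good : Finset (Fin n) → Prop := fun S => ∃ b : Fin n → K, (∃ i ∈ S, b i ≠ 0) ∧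
    ∑ i ∈ S, b i • u i = 0
  have hex : ∃ k, ∃ S : Finset (Fin n), S.card = k ∧ good S := by
    refine ⟨_, Finset.univ, rfl, c, ?_, hrel⟩
    obtain ⟨i, hi⟩ := Function.ne_iff.mp hc
    exact ⟨i, Finset.mem_univ i, hi⟩
  obtain ⟨S, hS, b, ⟨i1, hi1, hb1⟩, hb⟩ := Nat.find_spec hex
  have hmin : ∀ T : Finset (Fin n), T.card < S.card → ¬ good T := by
    intro T hT hg
    rw [hS] at hT
    exact Nat.find_min hex hT ⟨T, rfl, hg⟩
  refine ⟨S, b, ⟨i1, hi1⟩, ?_, hb, ?_⟩
  · intro i hi hbi
    refine hmin (S.erase i) (Finset.card_erase_lt_of_mem hi) ⟨b, ⟨i1, ?_, hb1⟩, ?_⟩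
    · refine Finset.mem_erase.mpr ⟨?_, hi1⟩
      rintro rfl
      exact hb1 hbi
    · rw [← Finset.add_sum_erase S _ hi, hbi, zero_smul, zero_add] at hb
      exact hb
  · intro i0 hi0
    rw [Fintype.linearIndependent_iff]
    intro g hg i
    by_contra hgi
    refine hmin (S.erase i0) (Finset.card_erase_lt_of_mem hi0)
      ⟨fun j => if h : j ∈ S.erase i0 then g ⟨j, h⟩ else 0, ⟨i, i.2, ?_⟩, ?_⟩
    · change (if h : (i : Fin n) ∈ S.erase i0 then g ⟨i, h⟩ else 0) ≠ 0
      rw [dif_pos i.2]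
      exact hgi
    · rw [← Finset.sum_coe_sort]
      rw [← hg]
      refine Finset.sum_congr rfl ?_
      intro j _
      change (if h : (j : Fin n) ∈ S.erase i0 then g ⟨j, h⟩ else 0) • u j = g j • u j
      rw [dif_pos j.2]

theorem bound [CharZero K] [IsAlgClosed K] (P : Fin 6 → K[X]) (hP : ∀ i, (P i).natDegree = 2)
    (hprop : ∀ i j, i ≠ j → ∀ c : K, P i ≠ C c * P j) (d : ℕ) (c : Fin 6 → K)
    (hc : c ≠ 0) (hrel : ∑ i, c i • P i ^ d = 0) : d ≤ 14 := by
  by_contra hd
  have hP0 : ∀ i, P i ≠ 0 := by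
    intro i h
    have := hP i
    rw [h] at this
    simp at this
  obtain ⟨S, b, hSne, hb, hb2, hind⟩ := exists_circuit (fun i => P i ^ d) c hc hrel
  obtain ⟨m, hm⟩ : ∃ m, S.card = m + 1 := by
    have := Finset.card_pos.mpr hSne
    exact ⟨S.card - 1, by omega⟩
  have hm5 : m ≤ 5 := by
    have := Finset.card_le_univ S
    rw [Fintype.card_fin] at this
    omega
  have hm1 : 1 ≤ m := by
    by_contra h0
    have h1 : S.card = 1 := by omega
    obtain ⟨a, rfl⟩ := Finset.card_eq_one.mp h1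
    rw [Finset.sum_singleton] at hb2
    rcases smul_eq_zero.mp hb2 with h | h
    · exact hb a (Finset.mem_singleton_self a) h
    · exact hP0 a (pow_eq_zero_iff (by omega : d ≠ 0) |>.mp h)
  by_cases hcom : ∀ x : K, ∃ i ∈ S, ¬ (P i).IsRoot x
  · have h1 := estimate S m d 2 hm P (fun i _ => hP i) (fun i _ => hP0 i) hcom b hb hb2 hind
    interval_cases m <;> simp [Fin.sum_univ_succ] at h1 <;> omega
  · push Not at hcom
    obtain ⟨x, hx⟩ := hcom
    have h2 : ∀ i, ∃ R : K[X], i ∈ S → P i = (X - C x) * R := by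
      intro i
      by_cases hi : i ∈ S
      · obtain ⟨R, hR⟩ := dvd_iff_isRoot.mpr (hx i hi)
        exact ⟨R, fun _ => hR⟩
      · exact ⟨0, fun h => absurd h hi⟩
    choose R hR using h2
    have hR0 : ∀ i ∈ S, R i ≠ 0 := by
      intro i hi h
      have := hR i hi
      rw [h, mul_zero] at this
      exact hP0 i this
    have hRd : ∀ i ∈ S, (R i).natDegree = 1 := by
      intro i hi
      have h3 := hP i
      rw [hR i hi, Polynomial.natDegree_mul (X_sub_C_ne_zero x) (hR0 i hi), natDegree_X_sub_C] at h3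
      omega
    have hXx : ((X - C x) ^ d : K[X]) ≠ 0 := pow_ne_zero _ (X_sub_C_ne_zero x)
    have hrelR : ∑ i ∈ S, b i • R i ^ d = 0 := by
      have h3 : (X - C x) ^ d * ∑ i ∈ S, b i • R i ^ d = 0 := by
        rw [← hb2, Finset.mul_sum]
        refine Finset.sum_congr rfl ?_
        intro i hi
        rw [hR i hi, mul_pow, mul_smul_comm]
      rcases mul_eq_zero.mp h3 with h | h
      · exact absurd h hXx
      · exact h
    have hindR : ∀ i0 ∈ S, LinearIndependent K (fun i : (S.erase i0 : Finset (Fin 6)) => R i ^ d) := by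
      intro i0 hi0
      have h3 := hind i0 hi0
      have h4 : (fun i : (S.erase i0 : Finset (Fin 6)) => P i ^ d) =
          (LinearMap.mulLeft K ((X - C x) ^ d : K[X])) ∘
            (fun i : (S.erase i0 : Finset (Fin 6)) => R i ^ d) := by
        ext1 i
        simp only [Function.comp_apply, LinearMap.mulLeft_apply]
        rw [hR i (Finset.mem_of_mem_erase i.2), mul_pow]
      rw [h4] at h3
      exact LinearIndependent.of_comp _ h3
    have hcomR : ∀ y : K, ∃ i ∈ S, ¬ (R i).IsRoot y := by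
      by_contra hcon
      push Not at hcon
      obtain ⟨y, hy⟩ := hcon
      have h4 : ∀ i ∈ S, ∃ a : K, a ≠ 0 ∧ P i = C a * ((X - C x) * (X - C y)) := by
        intro i hi
        obtain ⟨q, hq⟩ := dvd_iff_isRoot.mpr (hy i hi)
        have hq0 : q ≠ 0 := by
          rintro rfl
          rw [mul_zero] at hq
          exact hR0 i hi hq
        have h5 := hRd i hi
        rw [hq, Polynomial.natDegree_mul (X_sub_C_ne_zero y) hq0, natDegree_X_sub_C] at h5
        have h6 : q.natDegree = 0 := by omega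
        rw [Polynomial.natDegree_eq_zero] at h6
        obtain ⟨a, ha⟩ := h6
        refine ⟨a, ?_, ?_⟩
        · rintro rfl
          apply hq0
          rw [← ha, C_0]
        · rw [hR i hi, hq, ← ha]
          ring
      have h5 : 1 < S.card := by omega
      obtain ⟨i, hi, j, hj, hij⟩ := Finset.one_lt_card.mp h5
      obtain ⟨a, _, ha2⟩ := h4 i hi
      obtain ⟨a', ha', ha2'⟩ := h4 j hj
      apply hprop i j hij (a / a')
      rw [ha2, ha2', ← mul_assoc (C (a / a')), ← C_mul, div_mul_cancel₀ a ha']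
    have h1 := estimate S m d 1 hm R hRd hR0 hcomR b hb hrelR hindR
    interval_cases m <;> simp [Fin.sum_univ_succ] at h1 <;> omega

end Q36.Wr
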