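import Mathlib
import Pool.Agent.Q36.Upper
import Pool.Agent.Q36.ConicDefs

open Polynomial
open scoped LinearAlgebra.Projectivization

namespace Q36.Conic

theorem coeff_quad (a b c : ℂ) : (C a * X ^ 2 + C b * X + C c : ℂ[X]).coeff 0 = c ∧
    (C a * X ^ 2 + C b * X + C c : ℂ[X]).coeff 1 = b ∧
    (C a * X ^ 2 + C b * X + C c : ℂ[X]).coeff 2 = a := by
  refine ⟨?_, ?_, ?_⟩ <;> simp [coeff_X, coeff_X_pow, coeff_C]

/-- coefficient version of the upper bound. -/
theorem coeff_bound (a b c : Fin 6 → ℂ) (d : ℕ) (hd : 15 ≤ d)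
    (h : ∀ s t : ℂ, F d (fun i => a i * s ^ 2 + b i * (s * t) + c i * t ^ 2) = 0) :
    ∃ i j : Fin 6, i ≠ j ∧ ∃ k l : ℂ, ¬ (k = 0 ∧ l = 0) ∧
      k * a i - l * a j = 0 ∧ k * b i - l * b j = 0 ∧ k * c i - l * c j = 0 := by
  by_contra hcon
  -- each quadratic is nonzero
  have hne : ∀ i, ¬ (a i = 0 ∧ b i = 0 ∧ c i = 0) := by
    rintro i ⟨h1, h2, h3⟩
    apply hcon
    have h4 : ∃ j : Fin 6, i ≠ j := by
      obtain ⟨j, hj⟩ := exists_ne i
      exact ⟨j, hj.symm⟩
    obtain ⟨j, hj⟩ := h4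
    exact ⟨i, j, hj, 1, 0, by simp, by simp [h1], by simp [h2], by simp [h3]⟩
  let p : Fin 6 → ℂ[X] := fun i => C (a i) * X ^ 2 + C (b i) * X + C (c i)
  have hp : ∀ i, p i ≠ 0 := by
    intro i hi
    apply hne i
    have h0 : (p i).coeff 0 = 0 := by rw [hi]; simp
    have h1 : (p i).coeff 1 = 0 := by rw [hi]; simp
    have h2 : (p i).coeff 2 = 0 := by rw [hi]; simp
    simp only [p] at h0 h1 h2
    rw [(coeff_quad _ _ _).1] at h0
    rw [(coeff_quad _ _ _).2.1] at h1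
    rw [(coeff_quad _ _ _).2.2] at h2
    exact ⟨h2, h1, h0⟩
  have hprod : (∏ i, p i) ≠ 0 := Finset.prod_ne_zero_iff.mpr fun i _ => hp i
  obtain ⟨s0, hs0⟩ : ∃ s0 : ℂ, (∏ i, p i).eval s0 ≠ 0 := by
    by_contra hall
    push Not at hall
    exact hprod (Polynomial.funext fun r => by rw [hall r, eval_zero])
  rw [eval_prod] at hs0
  have hs : ∀ i, a i * s0 ^ 2 + b i * s0 + c i ≠ 0 := by
    intro i
    have := Finset.prod_ne_zero_iff.mp hs0 i (Finset.mem_univ i)
    simpa [p] using this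
  let P : Fin 6 → ℂ[X] := fun i => C (a i * s0 ^ 2 + b i * s0 + c i) * X ^ 2 +
    C (2 * a i * s0 + b i) * X + C (a i)
  have hPd : ∀ i, (P i).natDegree = 2 := fun i => natDegree_quadratic (hs i)
  have hprop : ∀ i j, i ≠ j → ∀ k : ℂ, P i ≠ C k * P j := by
    intro i j hij k hk
    apply hcon
    refine ⟨i, j, hij, 1, k, by simp, ?_⟩
    have h0 : (P i).coeff 0 = (C k * P j).coeff 0 := by rw [hk]
    have h1 : (P i).coeff 1 = (C k * P j).coeff 1 := by rw [hk]
    have h2 : (P i).coeff 2 = (C k * P j).coeff 2 := by rw [hk]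
    rw [coeff_C_mul] at h0 h1 h2
    simp only [P] at h0 h1 h2
    rw [(coeff_quad _ _ _).1, (coeff_quad _ _ _).1] at h0
    rw [(coeff_quad _ _ _).2.1, (coeff_quad _ _ _).2.1] at h1
    rw [(coeff_quad _ _ _).2.2, (coeff_quad _ _ _).2.2] at h2
    refine ⟨?_, ?_, ?_⟩
    · linear_combination h0
    · linear_combination h1 - 2 * s0 * h0
    · linear_combination h2 - s0 * h1 + s0 ^ 2 * h0
  have hrel : ∑ i, (![1, 1, 1, -1, -1, -1] : Fin 6 → ℂ) i • P i ^ d = 0 := by
    apply Polynomial.funext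
    intro x
    have h1 := h (s0 * x + 1) x
    have h2 : ∀ i, (P i).eval x = a i * (s0 * x + 1) ^ 2 + b i * ((s0 * x + 1) * x) + c i * x ^ 2 := by
      intro i
      simp [P]
      ring
    simp only [eval_finsetSum, eval_smul, eval_pow, h2, eval_zero]
    simp only [F] at h1
    simp only [Fin.sum_univ_six]
    rw [← h1]
    simp
    ring
  have := Q36.Wr.bound P hPd hprop d _ (by
    intro h0
    have := congrFun h0 0
    simp at this) hrel
  omega

theorem exists_param (A : Matrix (Fin 3) (Fin 3) ℂ) (hA : A.IsSymm) (hd : A.det ≠ 0) :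
    ∃ φ : (Fin 3 → ℂ) ≃ₗ[ℂ] (Fin 3 → ℂ), ∀ x, quad A (φ x) = x 0 ^ 2 + x 1 ^ 2 + x 2 ^ 2 := by
  let Q : QuadraticForm ℂ (Fin 3 → ℂ) := LinearMap.BilinMap.toQuadraticMap (Matrix.toLinearMap₂' ℂ A)
  have hQ : ∀ x, Q x = quad A x := by
    intro x
    have h0 : Q x = Matrix.toLinearMap₂' ℂ A x x := rfl
    rw [h0, Matrix.toLinearMap₂'_apply, quad]
    refine Finset.sum_congr rfl fun i _ => Finset.sum_congr rfl fun j _ => ?_
    simp only [smul_eq_mul]
    ring
  have hsep : (QuadraticMap.associated (R := ℂ) Q).SeparatingLeft := by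
    intro u hu
    have h1 : ∀ j, ∑ i, u i * A i j = 0 := by
      intro j
      have h2 := hu (Pi.single j 1)
      rw [QuadraticMap.associated_apply, hQ, hQ, hQ] at h2
      have h3 : quad A (u + Pi.single j 1) - quad A u - quad A (Pi.single j 1) = 0 := by
        simpa using h2
      have s01 : A 1 0 = A 0 1 := hA.apply 0 1
      have s02 : A 2 0 = A 0 2 := hA.apply 0 2
      have s12 : A 2 1 = A 1 2 := hA.apply 1 2
      simp only [quad, Fin.sum_univ_three, Pi.add_apply] at h3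
      rw [Fin.sum_univ_three]
      fin_cases j
      · simp at h3 ⊢
        rw [s01, s02] at h3 ⊢
        linear_combination h3 / 2
      · simp at h3 ⊢
        rw [s01, s12] at h3
        rw [s12]
        linear_combination h3 / 2
      · simp at h3 ⊢
        rw [s02, s12] at h3
        linear_combination h3 / 2
    by_contra hu0
    have h4 : ∃ u : Fin 3 → ℂ, u ≠ 0 ∧ Matrix.vecMul u A = 0 := by
      refine ⟨u, hu0, ?_⟩
      ext j
      simp only [Matrix.vecMul, dotProduct, Pi.zero_apply]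
      exact h1 j
    exact hd (Matrix.exists_vecMul_eq_zero_iff.mp h4)
  have h : ∀ n, Module.finrank ℂ (Fin 3 → ℂ) = n →
      QuadraticMap.Equivalent Q (QuadraticMap.weightedSumSquares ℂ (1 : Fin n → ℂ)) := by
    rintro _ rfl
    exact QuadraticForm.equivalent_weightedSumSquares_of_isAlgClosed Q hsep
  obtain ⟨e⟩ := h 3 (Module.finrank_fin_fun ℂ)
  refine ⟨e.toLinearEquiv.symm, ?_⟩
  intro x
  rw [← hQ]
  have h1 := e.map_app (e.toLinearEquiv.symm x)
  rw [← h1]
  have h2 : e (e.toLinearEquiv.symm x) = x := e.toLinearEquiv.apply_symm_apply x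
  rw [h2, QuadraticMap.weightedSumSquares_apply]
  simp [Fin.sum_univ_succ]
  ring

theorem upper (d : ℕ) (hd : 15 ≤ d) (C : Set (ℙ ℂ (Fin 6 → ℂ))) (hC : IsConic C) (hX : C ⊆ Xd d) :
    Degenerate C := by
  obtain ⟨v, A, hv, hA, hdet, rfl⟩ := hC
  obtain ⟨φ, hφ⟩ := exists_param A hA hdet
  let w : ℂ → ℂ → Fin 3 → ℂ := fun s t => ![s ^ 2 - t ^ 2, 2 * (s * t), Complex.I * (s ^ 2 + t ^ 2)]
  let ψ : (Fin 3 → ℂ) → Fin 6 → ℂ := fun x => ∑ k, φ x k • v k
  let e : Fin 3 → Fin 6 → ℂ := fun k => ψ (Pi.single k 1)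
  have hlin : ∀ (x : Fin 3 → ℂ) (i : Fin 6), ψ x i = x 0 * e 0 i + x 1 * e 1 i + x 2 * e 2 i := by
    intro x i
    have h1 : x = x 0 • (Pi.single 0 1 : Fin 3 → ℂ) + x 1 • (Pi.single 1 1 : Fin 3 → ℂ) + x 2 • (Pi.single 2 1 : Fin 3 → ℂ) := by
      ext k
      fin_cases k <;> simp
    have h2 : φ x = x 0 • φ (Pi.single 0 1) + x 1 • φ (Pi.single 1 1) + x 2 • φ (Pi.single 2 1) := by
      conv_lhs => rw [h1]
      simp only [map_add, map_smul]
    simp only [ψ, e, h2, Fin.sum_univ_three, Pi.add_apply, Pi.smul_apply, smul_eq_mul]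
    ring
  have hQw : ∀ s t, quad A (φ (w s t)) = 0 := by
    intro s t
    rw [hφ]
    simp only [w, Matrix.cons_val_zero, Matrix.cons_val_one, Matrix.cons_val]
    linear_combination (s ^ 2 + t ^ 2) ^ 2 * Complex.I_sq
  have hF : ∀ s t, F d (ψ (w s t)) = 0 := by
    intro s t
    by_cases h0 : ψ (w s t) = 0
    · rw [h0]
      simp [F, zero_pow (by omega : d ≠ 0)]
    · have h1 : Projectivization.mk ℂ (ψ (w s t)) h0 ∈ Xd d := by
        apply hX
        exact mk_mem_conic v A (φ (w s t)) (hQw s t) (ψ (w s t)) h0 rfl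
      exact (mk_mem_X d _ h0).mp h1
  have hquad : ∀ s t i, ψ (w s t) i =
      (e 0 i + Complex.I * e 2 i) * s ^ 2 + (2 * e 1 i) * (s * t) + (Complex.I * e 2 i - e 0 i) * t ^ 2 := by
    intro s t i
    rw [hlin]
    simp only [w, Matrix.cons_val_zero, Matrix.cons_val_one, Matrix.cons_val]
    ring
  obtain ⟨i, j, hij, k, l, hkl, h1, h2, h3⟩ := coeff_bound (fun i => e 0 i + Complex.I * e 2 i)
    (fun i => 2 * e 1 i) (fun i => Complex.I * e 2 i - e 0 i) d hd (by
      intro s t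
      have := hF s t
      have h4 : ψ (w s t) = fun i => (e 0 i + Complex.I * e 2 i) * s ^ 2 + (2 * e 1 i) * (s * t) + (Complex.I * e 2 i - e 0 i) * t ^ 2 := by
        ext i
        exact hquad s t i
      rw [h4] at this
      exact this)
  refine ⟨i, j, hij, k, l, hkl, ?_⟩
  rintro p ⟨x, _, hx⟩
  obtain ⟨y, rfl⟩ := φ.surjective x
  have hI : Complex.I ≠ 0 := Complex.I_ne_zero
  have h4 : k * e 0 i - l * e 0 j = 0 := by linear_combination (h1 - h3) / 2
  have h5 : k * e 2 i - l * e 2 j = 0 := by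
    have h6 : Complex.I * (k * e 2 i - l * e 2 j) = 0 := by linear_combination (h1 + h3) / 2
    exact (mul_eq_zero.mp h6).resolve_left hI
  have h6 : k * e 1 i - l * e 1 j = 0 := by linear_combination h2 / 2
  have h7 : p.rep = ψ y := hx
  rw [h7, hlin, hlin]
  linear_combination y 0 * h4 + y 1 * h6 + y 2 * h5

end Q36.Conic
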